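import Pool.Agent.H621.HG.Stp
import Pool.Agent.H621.FX.Twr

/-!
# Towers with divisors
-/

open CategoryTheory AlgebraicGeometry Finset Function

set_option linter.unusedSectionVars false

universe u

namespace Pool.Agent.H621.HG

open Pool.Agent.TH125.Gal Pool.Agent.H802T Pool.Agent.H621.FX
open Pool.Agent.H914 Pool.Agent.H914.VarClass Pool.Agent.H914.VarClass.Obj
  Pool.Agent.H914.WeilCohomology Pool.Agent.H281R3.HT Pool.Agent.W552

variable {k : Type u} [Field k] {𝒱 : VarClass k} {ops : CycleOps 𝒱}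
  {W : WeilCohomology.{u, 0} ops} {Γ : Type} [Group Γ] {χ : Γ →* W.Kˣ}

/-- `C` is the sum of the pull-backs of the divisors `F` on the power and `E` on the rest. -/
def IsSum (X : GVar W Γ) (n : ℕ) (Z Y : GVar W Γ) (F : (power ops X.X n).Cycles)
    (E : Z.X.Cycles) (C : Y.X.Cycles) : Prop :=
  ∃ h : Y.X = powTimes X n Z,
    W.cl Y.X C = W.map (eqToHom h ≫ fst (power ops X.X n) Z.X) (W.cl _ F) +
      W.map (eqToHom h ≫ toRest X n Z) (W.cl _ E)

theorem IsSum.refl {X Z : GVar W Γ} {n : ℕ}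
    {υ : Γ →* (W.H (powTimes X n Z) ≃ₐ[W.K] W.H (powTimes X n Z))}
    {F : (power ops X.X n).Cycles} {E : Z.X.Cycles} {C : (powTimes X n Z).Cycles}
    (h : IsSum X n Z ⟨powTimes X n Z, υ⟩ F E C) :
    W.cl ((power ops X.X n).prod Z.X) C =
      W.map (fst (power ops X.X n) Z.X) (W.cl _ F) +
        W.map (snd (power ops X.X n) Z.X) (W.cl _ E) := by
  obtain ⟨h0, hcl⟩ := h
  have e1 : (eqToHom h0 ≫ fst (power ops X.X n) Z.X : (power ops X.X n).prod Z.X ⟶ _) =
      fst (power ops X.X n) Z.X := Category.id_comp _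
  have e2 : (eqToHom h0 ≫ toRest X n Z : (power ops X.X n).prod Z.X ⟶ _) =
      snd (power ops X.X n) Z.X := Category.id_comp _
  refine (show _ = _ from hcl).trans ?_
  congr 1

theorem IsSum.of_refl {X Z : GVar W Γ} {n : ℕ}
    {υ : Γ →* (W.H (powTimes X n Z) ≃ₐ[W.K] W.H (powTimes X n Z))}
    {F : (power ops X.X n).Cycles} {E : Z.X.Cycles} {C : (powTimes X n Z).Cycles}
    (h : W.cl ((power ops X.X n).prod Z.X) C =
      W.map (fst (power ops X.X n) Z.X) (W.cl _ F) +
        W.map (snd (power ops X.X n) Z.X) (W.cl _ E)) :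
    IsSum X n Z ⟨powTimes X n Z, υ⟩ F E C := by
  refine ⟨rfl, ?_⟩
  have e1 : (eqToHom rfl ≫ fst (power ops X.X n) Z.X : (power ops X.X n).prod Z.X ⟶ _) =
      fst (power ops X.X n) Z.X := Category.id_comp _
  have e2 : (eqToHom rfl ≫ toRest X n Z : (power ops X.X n).prod Z.X ⟶ _) =
      snd (power ops X.X n) Z.X := Category.id_comp _
  refine (show _ = _ from h).trans ?_
  congr 1

/-- Towers with divisors. -/
inductive DivTower {ι : Type} (X : ι → GVar W Γ) (T : ι → PRep W.K Γ) (Z : GVar W Γ)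
    (p : ∀ i n, (power ops (X i).X n).Cycles → Prop) (E : Z.X.Cycles) :
    Set ι → (Y : GVar W Γ) → Y.X.Cycles → Prop
  | base : DivTower X T Z p E ∅ Z E
  | step {S Y Y' C C'} (i : ι) (n : ℕ) (F : (power ops (X i).X n).Cycles) :
      DivTower X T Z p E S Y C → i ∉ S →
      (Even (X i).X.dim → n + 1 < (T i).dim) → IsPowTimes (X i) n Y Y' → p i n F →
      Y'.X.IsCyc 1 C' → IsSum (X i) n Y Y' F C C' →
      DivTower X T Z p E (insert i S) Y' C'

variable {J N : Type} {X : J → GVar W Γ} {T : J → PRep W.K Γ} {G : N → PRep W.K Γ} {Z : GVar W Γ}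

theorem DivTower.tower {p : ∀ i n, (power ops (X i).X n).Cycles → Prop} {E : Z.X.Cycles}
    {U : Set J} {Y : GVar W Γ} {C : Y.X.Cycles} (h : DivTower X T Z p E U Y C) :
    Tower X T Z U Y := by
  induction h with
  | base => exact Tower.base
  | step i n F _ hi hn hP _ _ _ ih => exact Tower.step i n ih hi hn hP

theorem power_one_ne {A : 𝒱.Obj} (h1 : (1 : W.H A) ≠ 0) (n : ℕ) :
    (1 : W.H (power ops A n)) ≠ 0 := by
  obtain ⟨x, hx⟩ := exists_tr h1
  have h2 : W.tr (nest ops n fun _ => (⟨A, 0⟩ : Polarized 𝒱)).X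
      (mono (prj ops n fun _ => (⟨A, 0⟩ : Polarized 𝒱)) fun _ => x) ≠ 0 := by
    rw [tr_mono]
    exact pow_ne_zero _ hx
  intro h0
  apply h2
  have h3 : (1 : W.H (nest ops n fun _ => (⟨A, 0⟩ : Polarized 𝒱)).X) = 0 := h0
  rw [← one_mul (mono _ _), h3, zero_mul]
  exact map_zero _

theorem prod_one_ne {A B : 𝒱.Obj} (hA : (1 : W.H A) ≠ 0) (hB : (1 : W.H B) ≠ 0) :
    (1 : W.H (A.prod B)) ≠ 0 := by
  intro h0
  apply hA
  refine TH132.A.ext_one_inj (U := B) hB ?_
  rw [H281R3.HT.ext, map_one, map_one, mul_one, h0]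

theorem tower_one_ne [IsAlgClosed W.K] (h : Mem χ X T) (hZ1 : (1 : W.H Z.X) ≠ 0)
    {U : Set J} {Y : GVar W Γ} (hY : Tower X T Z U Y) : (1 : W.H Y.X) ≠ 0 := by
  induction hY with
  | base => exact hZ1
  | @step S Y Y' i n hT hi hn hP ih =>
    obtain ⟨YX, υ⟩ := Y'
    obtain ⟨h0, h1, h2⟩ := hP
    change YX = powTimes (X i) n Y at h0
    subst h0
    exact prod_one_ne (power_one_ne (h.one_ne i) n) ih

/-- **The divisors on towers split.** -/
theorem div_tower [IsAlgClosed W.K] [Finite N] (h : Mem χ X T) {B : Finset J}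
    (hZ : GeneratedBy (Sum.elim (fun j : B => T j) G) Z)
    (hgal : ∀ S Y, Tower X T Z S Y → IsGaloisVar χ Y) (hZ1 : (1 : W.H Z.X) ≠ 0)
    {U : Set J} {Y : GVar W Γ}
    (hY : Tower X T Z U Y) (hU : ∀ i ∈ U, i ∉ B ∧ ¬ Exc G (T i)) (C : Y.X.Cycles)
    (hC : HL W Y.X C) : ∃ E, HL W Z.X E ∧
      DivTower X T Z (fun i n F => HL W (power ops (X i).X n) F) E U Y C := by
  induction hY with
  | base => exact ⟨C, hC, DivTower.base⟩
  | @step S Y Y' i n hT hi hn hP ih =>
    obtain ⟨hiB, hex⟩ := hU i (Set.mem_insert _ _)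
    have hw := step_whole h hZ hT hi hiB hex
    have hY' := hgal _ _ (Tower.step i n hT hi hn hP)
    have hP' := hP
    obtain ⟨YX, υ⟩ := Y'
    obtain ⟨h0, h1, h2⟩ := hP
    change YX = powTimes (X i) n Y at h0
    subst h0
    simp only [eqToHom_refl, Category.id_comp] at h1 h2
    have hPA := isPowAct h1 h2
    obtain ⟨e, he, hform⟩ := h.trans i
    have hY1 := tower_one_ne h hZ1 hT
    have hS := clSplit2 (P := ⟨(X i).X, 0⟩) (h.homEqNum i) (h.middle i)
      (isGalois (h.galois i)) hPA (isGalois hY') (fun h' => (hn h').trans_eq e.finrank_eq)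
      hw hY1
    obtain ⟨D', E', hD', hE', hDE⟩ := TH132.A.div_split hS hC.1
    have h3 := TH132.A.hl_left hD' hE' hDE hC.2 hY1
    have h4 := TH132.A.hl_right hE' hD' hDE hC.2 (power_one_ne (h.one_ne i) n)
    obtain ⟨E, hE, hT'⟩ := ih (fun j hj => hU j (Set.mem_insert_of_mem _ hj)) E' ⟨hE', h4⟩
    exact ⟨E, hE, DivTower.step i n D' hT' hi hn hP' ⟨hD', h3⟩ hC.1 (IsSum.of_refl hDE)⟩

/-- A divisor on a power for which the conjecture of Hodge type is known. -/
def PowPol (W : WeilCohomology.{u, 0} ops) (X : 𝒱.Obj) (n : ℕ) (F : (power ops X n).Cycles) :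
    Prop :=
  HL W (power ops X n) F ∧ (HodgeType W (power ops X n) F ∨
    ∃ D : Fin (n + 1) → X.Cycles, (∀ p, HL W X (D p) ∧ HodgeType W X (D p)) ∧
      W.cl _ F = ∑ p, W.map (powerPrj ops X n p) (W.cl X (D p)))

/-- **The conjecture of Hodge type for towers.** -/
theorem hodge_tower [IsAlgClosed W.K] [Finite N] (h : Mem χ X T) {B : Finset J}
    (hZ : GeneratedBy (Sum.elim (fun j : B => T j) G) Z)
    (hgal : ∀ S Y, Tower X T Z S Y → IsGaloisVar χ Y)
    (hsq : ∀ i, ∃ Y, IsPowTimes (X i) 1 Z Y) (hZ1 : (1 : W.H Z.X) ≠ 0)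
    {E : Z.X.Cycles} (hE : HL W Z.X E) {U : Set J} {Y : GVar W Γ} {C : Y.X.Cycles}
    (hY : DivTower X T Z (fun i n F => PowPol W (X i).X n F) E U Y C)
    (hU : ∀ i ∈ U, i ∉ B ∧ ¬ Exc G (T i)) :
    HL W Y.X C ∧ (HodgeType W Y.X C ↔ HodgeType W Z.X E) := by
  induction hY with
  | base => exact ⟨hE, Iff.rfl⟩
  | @step S Y Y' C C' i n F hTT hi hn hP hF hC' hsum ih =>
    have hT := hTT.tower
    obtain ⟨ihC, iht⟩ := ih fun j hj => hU j (Set.mem_insert_of_mem _ hj)
    obtain ⟨hiB, hex⟩ := hU i (Set.mem_insert _ _)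
    have hw := step_whole h hZ hT hi hiB hex
    have hY' := hgal _ _ (Tower.step i n hT hi hn hP)
    obtain ⟨YX, υ⟩ := Y'
    obtain ⟨h0, h1, h2⟩ := hP
    change YX = powTimes (X i) n Y at h0
    subst h0
    simp only [eqToHom_refl, Category.id_comp] at h1 h2
    have hPA := isPowAct h1 h2
    obtain ⟨e, he, hform⟩ := h.trans i
    have hY1 := tower_one_ne h hZ1 hT
    have hcl := hsum.refl
    have hK : Even (X i).X.dim → n + 1 < Module.finrank W.K (transcendental W (X i).X) :=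
      fun h' => (hn h').trans_eq e.finrank_eq
    have hFH : HodgeType W (power ops (X i).X n) F := by
      rcases hF.2 with hF' | ⟨D, hD, hclF⟩
      · exact hF'
      · obtain ⟨s⟩ := exists_SB (h.homEqNum i)
        have hn1 := mq_step (P := ⟨(X i).X, 0⟩) (h.homEqNum i) (h.middle i)
          (isGalois (h.galois i)) hPA (isGalois hY') hK hw s hY1
        have hDn := (homEqNum_pow (P := ⟨(X i).X, 0⟩) (h.homEqNum i) (h.middle i)
          (isGalois (h.galois i)) hPA (isGalois hY') hK hw).2 hY1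
        have hsqr : 1 ≤ n → HomEqNum W ((X i).X.prod (X i).X) ∧
            ∀ c, W552.AS W ((X i).X.prod (X i).X) c → c ∈ Submodule.span W.K
              {c | (∃ a ∈ algSpan W (X i).X, ∃ b ∈ algSpan W (X i).X,
                c = H281R3.HT.ext W a b) ∨ c = dT s} := by
          intro hn0
          refine ⟨homEqNum_square (h.one_ne i) hn0 hDn, ?_⟩
          obtain ⟨Y₂, hP₂⟩ := hsq i
          have hn2 : Even (X i).X.dim → 1 + 1 < (T i).dim := fun h' =>
            lt_of_le_of_lt (by omega) (hn h')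
          have hw₂ := step_whole h hZ Tower.base (Set.notMem_empty i) hiB hex
          have hY₂ := hgal _ _ (Tower.step i 1 Tower.base (Set.notMem_empty i) hn2 hP₂)
          obtain ⟨YX₂, υ₂⟩ := Y₂
          obtain ⟨h0₂, h1₂, h2₂⟩ := hP₂
          change YX₂ = powTimes (X i) 1 Z at h0₂
          subst h0₂
          simp only [eqToHom_refl, Category.id_comp] at h1₂ h2₂
          have hPA₂ := isPowAct h1₂ h2₂
          have hm := mq_step (P := ⟨(X i).X, 0⟩) (h.homEqNum i) (h.middle i)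
            (isGalois (h.galois i)) hPA₂ (isGalois hY₂)
            (fun h' => (hn2 h').trans_eq e.finrank_eq) hw₂ s hZ1
          intro c hc
          have hpr : (prj ops 1 (fun _ => (⟨(X i).X, 0⟩ : Polarized 𝒱)) 1 :
              ((X i).X.prod (X i).X) ⟶ (X i).X) = snd (X i).X (X i).X :=
            Category.comp_id _
          exact span_two (h.middle i) s
            (π := prj ops 1 fun _ => (⟨(X i).X, 0⟩ : Polarized 𝒱)) rfl hpr (hm c hc)
        obtain ⟨F', hF1, hF2, hF3⟩ := pow_hodge (ops := ops) (n := n) D (fun a => (hD a).1)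
          (fun a => (hD a).2) (h.homEqNum i) (h.middle i) s (h.one_ne i) hsqr hn1
        exact (hodgeType_congr hF1.1 hF.1.1 (hF2.trans hclF.symm)).1 hF3
    refine ⟨?_, ?_⟩
    · have hcl0 : W.cl ((power ops (X i).X n).prod Y.X)
          (ops.pull (fst (power ops (X i).X n) Y.X) F +
            ops.pull (snd (power ops (X i).X n) Y.X) C) = W.cl _ C' := by
        rw [map_add, W.cl_pull, W.cl_pull]
        exact hcl.symm
      exact HL.congr (W := W) (X := (power ops (X i).X n).prod Y.X)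
        ⟨SmVar.IsCyc.add (ops.pull_mem _ hF.1.1) (ops.pull_mem _ ihC.1),
          hardLefschetz_prod hF.1.1 ihC.1 hF.1.2 ihC.2⟩ hC' hcl0
    · rw [← iht]
      exact hodge_step (P := ⟨(X i).X, 0⟩) (h.homEqNum i) (h.middle i)
        (isGalois (h.galois i)) hPA (isGalois hY') hK hw (h.one_ne i) hF.1 hFH ihC hC' hcl

end Pool.Agent.H621.HG
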