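import Pool.Agent.H621.HG.Pub
import Pool.Agent.H621.HG.Twr
import Pool.Agent.H802T.LefA

/-!
# Cycles and classes
-/

open CategoryTheory AlgebraicGeometry Finset Function

set_option linter.unusedSectionVars false

universe u

namespace Pool.Agent.H621.HG.Cls

open Pool.Agent.TH125.Gal Pool.Agent.H802T Pool.Agent.H621.FX
open Pool.Agent.H914 Pool.Agent.H914.VarClass Pool.Agent.H914.VarClass.Obj
  Pool.Agent.H914.WeilCohomology Pool.Agent.W552

variable {k : Type u} [Field k] {𝒱 : VarClass k} {ops : CycleOps 𝒱}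
  {W : WeilCohomology.{u, 0} ops} {Γ : Type} [Group Γ] {χ : Γ →* W.Kˣ}

theorem isLefschetz_iff {X : 𝒱.Obj} {D : X.Cycles} (hD : X.IsCyc 1 D) :
    IsLefschetz W X (W.cl X D) ↔ HL W X D :=
  ⟨fun h => ⟨hD, (hardElt_iff X D).1 h.2⟩, fun h => ⟨⟨D, hD, rfl⟩, (hardElt_iff X D).2 h.2⟩⟩

theorem isLefschetz_iff' {X : 𝒱.Obj} {d : W.H X} :
    IsLefschetz W X d ↔ ∃ D, W.cl X D = d ∧ HL W X D := by
  constructor
  · intro h
    obtain ⟨D, hD, rfl⟩ := h.1
    exact ⟨D, rfl, (isLefschetz_iff hD).1 h⟩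
  · rintro ⟨D, rfl, hD⟩
    exact (isLefschetz_iff hD.1).2 hD

theorem tr_cl_mul {X : 𝒱.Obj} {z w : X.Cycles} {j : ℕ} (hj : j ≤ X.dim) (hz : X.IsCyc j z)
    (hw : X.IsCyc (X.dim - j) w) :
    W.tr X (W.cl X z * W.cl X w) = ((X.V.degCycle (ops.mul z w) : ℚ) : W.K) := by
  have e1 := ops.mul_mem hz hw
  rw [show j + (X.dim - j) = X.dim by omega] at e1
  rw [← W.cl_mul, W.tr_cl e1]

theorem homEqNum {X : 𝒱.Obj} (h : NumEqHom (W.tr X) (algClasses W X) X.dim) : HomEqNum W X := by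
  intro j hj z hz h0
  refine h j hj _ ⟨z, hz, rfl⟩ ?_
  rintro _ ⟨w, hw, rfl⟩
  rw [tr_cl_mul hj hz hw, h0 w hw, Rat.cast_zero]

theorem hodgeType_iff {X : 𝒱.Obj} {D : X.Cycles} (hD : X.IsCyc 1 D) :
    HodgeType W X (W.cl X D) ↔ Pool.Agent.H914.HodgeType W X D := by
  have hpow : ∀ i z, W.cl X (divPow ops D i z) = (W.cl X D) ^ i * W.cl X z := fun i z => by
    rw [cl_divPow, LinearMap.pow_mulLeft, LinearMap.mulLeft_apply]
  have hdeg : ∀ j, 2 * j ≤ X.dim → ∀ z, X.IsCyc j z →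
      W.tr X (W.cl X z * ((W.cl X D) ^ (X.dim - 2 * j) * W.cl X z)) =
        ((X.V.degCycle (ops.mul z (divPow ops D (X.dim - 2 * j) z)) : ℚ) : W.K) := by
    intro j hj z hz
    have e1 := ops.mul_mem hz (divPow_mem (ops := ops) hD (X.dim - 2 * j) hz)
    rw [show j + (j + (X.dim - 2 * j)) = X.dim by omega] at e1
    rw [← W.tr_cl e1, W.cl_mul, hpow]
  have hone : ∀ j : ℕ, ((-1 : ℚ) ^ j) * (-1) ^ j = 1 := fun j => by
    rw [← mul_pow]
    simp
  constructor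
  · intro h j hj z hz h0 hz0
    obtain ⟨q, hq, h1⟩ := h j hj _ ⟨z, hz, rfl⟩ (by rw [← hpow, h0]) hz0
    rw [hdeg j hj z hz] at h1
    have h2 : (X.V.degCycle (ops.mul z (divPow ops D (X.dim - 2 * j) z)) : ℚ) = (-1) ^ j * q := by
      apply Rat.cast_injective (α := W.K)
      rw [h1]
      push_cast
      ring
    rw [h2, ← mul_assoc, hone, one_mul]
    exact hq
  · rintro h j hj _ ⟨z, hz, rfl⟩ h0 hz0
    refine ⟨_, h j hj z hz (by rw [hpow, h0]) hz0, ?_⟩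
    rw [hdeg j hj z hz]
    have h3 := hone j
    have h4 : ((-1 : W.K) ^ j) * (-1) ^ j = 1 := by
      rw [← mul_pow]
      simp
    push_cast
    rw [← mul_assoc, h4, one_mul]

theorem hodgeType_iff' {X : 𝒱.Obj} {D : X.Cycles} (h : HL W X D) :
    HodgeType W X (W.cl X D) ↔ Pool.Agent.H914.HodgeType W X D := hodgeType_iff h.1

theorem powPol {X : 𝒱.Obj} {n : ℕ} {f : W.H (power ops X n)} (h : IsPowerPolarization W X n f) :
    ∃ F, W.cl _ F = f ∧ PowPol W X n F := by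
  obtain ⟨F, rfl, hF⟩ := isLefschetz_iff'.1 h.1
  refine ⟨F, rfl, hF, ?_⟩
  rcases h.2 with h2 | ⟨d, hd, hs⟩
  · exact Or.inl ((hodgeType_iff' hF).1 h2)
  · choose D hD hDL using fun p => isLefschetz_iff'.1 (hd p).1
    refine Or.inr ⟨D, fun p => ⟨hDL p, (hodgeType_iff' (hDL p)).1 ?_⟩, ?_⟩
    · rw [hD p]
      exact (hd p).2
    · rw [hs, sumPull]
      exact Finset.sum_congr rfl fun p _ => by rw [hD p]

theorem boxSum_cl {X Y : 𝒱.Obj} (a : X.Cycles) (b : Y.Cycles) :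
    boxSum W (W.cl X a) (W.cl Y b) =
      W.cl (X.prod Y) (ops.pull (fst X Y) a + ops.pull (snd X Y) b) := by
  rw [map_add, W.cl_pull, W.cl_pull]
  rfl

section twr

variable {ι : Type} {X : ι → GVar W Γ} {T : ι → PRep W.K Γ} {Z : GVar W Γ}

/-- From classes to cycles. -/
theorem SumTower.cycles {p : ∀ (A : 𝒱.Obj) (n : ℕ), W.H (power ops A n) → Prop}
    {p' : ∀ i n, (power ops (X i).X n).Cycles → Prop}
    (hp : ∀ i n f, p (X i).X n f → ∃ F, W.cl _ F = f ∧ (power ops (X i).X n).IsCyc 1 F ∧ p' i n F)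
    {E : Z.X.Cycles} (hE : Z.X.IsCyc 1 E)
    {U : Set ι} {Y : GVar W Γ} {c : W.H Y.X} (h : SumTower X T Z p (W.cl _ E) U Y c) :
    ∃ C, W.cl _ C = c ∧ Y.X.IsCyc 1 C ∧ DivTower X T Z p' E U Y C := by
  induction h with
  | base => exact ⟨E, rfl, hE, DivTower.base⟩
  | @step S Y Y' c c' i n f hT hi hn hP hf hc ih =>
    obtain ⟨C, rfl, hC, hD⟩ := ih
    obtain ⟨F, rfl, hF, hF'⟩ := hp i n f hf
    have hP' := hP
    obtain ⟨YX, υ⟩ := Y'
    obtain ⟨h0, -, -⟩ := hP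
    change YX = powTimes (X i) n Y at h0
    subst h0
    have hc' := eq_of_heq hc
    have hcl := boxSum_cl (W := W) F C
    have hcyc : ((power ops (X i).X n).prod Y.X).IsCyc 1
        (ops.pull (fst (power ops (X i).X n) Y.X) F +
          ops.pull (snd (power ops (X i).X n) Y.X) C) :=
      SmVar.IsCyc.add (ops.pull_mem _ hF) (ops.pull_mem _ hC)
    refine ⟨_, hcl.symm.trans hc'.symm, hcyc, ?_⟩
    refine DivTower.step i n F hD hi hn hP' hF' hcyc (IsSum.of_refl ?_)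
    rw [map_add, W.cl_pull, W.cl_pull]

/-- From cycles to classes. -/
theorem SumTower.classes {p : ∀ (A : 𝒱.Obj) (n : ℕ), W.H (power ops A n) → Prop}
    {p' : ∀ i n, (power ops (X i).X n).Cycles → Prop}
    (hp : ∀ i n F, p' i n F → p (X i).X n (W.cl _ F))
    {E : Z.X.Cycles}
    {U : Set ι} {Y : GVar W Γ} {C : Y.X.Cycles} (h : DivTower X T Z p' E U Y C) :
    SumTower X T Z p (W.cl _ E) U Y (W.cl _ C) := by
  induction h with
  | base => exact SumTower.base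
  | @step S Y Y' C C' i n F hTT hi hn hP hF hC' hsum ih =>
    have hP' := hP
    obtain ⟨YX, υ⟩ := Y'
    obtain ⟨h0, -, -⟩ := hP
    change YX = powTimes (X i) n Y at h0
    subst h0
    refine SumTower.step i n _ ih hi hn hP' (hp i n F hF) (heq_of_eq ?_)
    exact hsum.refl

end twr

end Pool.Agent.H621.HG.Cls
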