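import Pool.Agent.H621.HG.Sq
import Pool.Agent.TH125.Gal.Nst

/-!
# Positivity of the form on the powers, with different divisors on the factors
-/

open CategoryTheory AlgebraicGeometry Finset

set_option linter.unusedSectionVars false

universe u v w

namespace Pool.Agent.H621.HG

open Pool.Agent.TH125.Gal
open Pool.Agent.H914 Pool.Agent.H914.VarClass Pool.Agent.H914.VarClass.Obj
  Pool.Agent.H914.WeilCohomology Pool.Agent.H281R3.HT Pool.Agent.W552 Pool.Agent.H447

variable {k : Type u} [Field k] {𝒱 : VarClass k} {ops : CycleOps 𝒱}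
  {W : WeilCohomology.{u, v} ops} {X Y : 𝒱.Obj}

/-- The classes `Mq` are products of classes from pairs of factors. -/
theorem mq_mch {N : ℕ} {π : Fin N → (Y ⟶ X)} {s : SB W X} (hDX : HomEqNum W X)
    (hmid : transcendental W X ≤ W.gr X X.dim) {S : Finset (Fin N)} {i : ℕ}
    {m : W.H Y} (h : Mq s π S i m) :
    m ∈ Submodule.span W.K {c | Mch W (fun _ : Fin N => X) (fun _ _ => W552.AS W _) π S c} := by
  induction h with
  | one => exact Submodule.subset_span Mch.one
  | @single S i c p l hm hp ih =>
    clear hm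
    induction ih using Submodule.span_induction with
    | mem c hc => exact Submodule.subset_span (Mch.single hc hp ((W552.AS.of (s.alg l)).map _))
    | zero => rw [mul_zero]; exact Submodule.zero_mem _
    | add x y _ _ hx hy => rw [mul_add]; exact Submodule.add_mem _ hx hy
    | smul q x _ hx => rw [mul_smul_comm]; exact Submodule.smul_mem _ _ hx
  | @pair S i c p q hm hp hq hpq ih =>
    clear hm
    have h1 : ∀ x ∈ algSpan W (X.prod X), W.map (Obj.lift (π p) (π q)) x * c ∈
        Submodule.span W.K {c | Mch W (fun _ : Fin N => X) (fun _ _ => W552.AS W _) π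
          (insert p (insert q S)) c} := by
      intro x hx
      induction hx using Submodule.span_induction with
      | mem x hx =>
        obtain ⟨j, hj⟩ := Set.mem_iUnion.1 hx
        induction ih using Submodule.span_induction with
        | mem c hc =>
          exact Submodule.subset_span (Mch.pair hc hp hq hpq (W552.AS.of hj))
        | zero => rw [mul_zero]; exact Submodule.zero_mem _
        | add x y _ _ hx hy => rw [mul_add]; exact Submodule.add_mem _ hx hy
        | smul q x _ hx => rw [mul_smul_comm]; exact Submodule.smul_mem _ _ hx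
      | zero => rw [map_zero, zero_mul]; exact Submodule.zero_mem _
      | add x y _ _ hx hy => rw [map_add, add_mul]; exact Submodule.add_mem _ hx hy
      | smul q x _ hx => rw [map_smul, smul_mul_assoc]; exact Submodule.smul_mem _ _ hx
    exact h1 _ (dQ_alg hDX hmid s)

/-- **Positivity of the form on the algebraic classes of a power.** -/
theorem fp_nest2 {n : ℕ} (D : Fin (n + 1) → X.Cycles) (hD : ∀ a, X.IsCyc 1 (D a))
    (hHL : ∀ a, HardLefschetz W X (D a)) (hB : ∀ a, LefschetzB W X (D a))
    (hH : ∀ a, HodgeType W X (D a))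
    (hDX : HomEqNum W X) (hmid : transcendental W X ≤ W.gr X X.dim) (s : SB W X)
    (hne : (1 : W.H X) ≠ 0)
    (h1 : ∀ c, W552.AS W (X.prod X) c → c ∈ Submodule.span W.K
      {c | (∃ a ∈ algSpan W X, ∃ b ∈ algSpan W X, c = H281R3.HT.ext W a b) ∨ c = dT s})
    (hn : ∀ c, W552.AS W (nest ops n fun a => ⟨X, D a⟩).X c → c ∈ Submodule.span W.K
      {m | ∃ S i, Mq s (prj ops n fun a => ⟨X, D a⟩) S i m}) :
    ∃ g, Fp W (nest ops n fun a => ⟨X, D a⟩).X (nest ops n fun a => ⟨X, D a⟩).D g := by
  choose f F hls using fun a => exists_Fp (hD a) (hHL a) (hB a) (hH a)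
  have hp : ∀ i, AOp W X X (proj (W.isInternal X) i) := proj_aop (F 0).fr.hD (hHL 0) (hB 0)
  have S : RSys W (fun a : Fin (n + 1) => ((fun a => ⟨X, D a⟩) a : Polarized 𝒱).X)
      (fun a => ((fun a => ⟨X, D a⟩) a : Polarized 𝒱).D) f (fun a b => W552.AS W _) := by
    refine ⟨fun a => (F a).fr, hls, fun a b => W552.AS.ratSub, fun h => h,
      fun h h' => h.comp h', fun h => h.map _, fun a => AOp.one, fun a => st_aop (F a).fr hp,
      fun a => par_aop hp, ?_⟩
    intro a b x hx hx0
    exact (fp_square2 hDX hmid (F a) (F b) s h1).pos x hx hx0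
  obtain ⟨g, hG, hGS, hG'⟩ := core' S (fun a => W552.AS.one)
    (fun a => (F a).pos 1 W552.AS.one hne) (fun a => (F a).sy)
  refine ⟨g, hG, hGS, fun x hx hx0 => hG' x hx ?_ hx0⟩
  refine (Submodule.span_le.2 ?_) (hn x hx)
  rintro m ⟨T, i, hm⟩
  have h2 := mq_mch hDX hmid hm
  refine Submodule.span_mono ?_ h2
  intro c hc
  exact ⟨T, hc⟩

end Pool.Agent.H621.HG
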