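import Pool.Agent.H802T.Pub
import Pool.Agent.H802T.PubA

/-!
# The conjecture of Hodge type in terms of the cohomology classes: definitions
-/

open CategoryTheory AlgebraicGeometry

universe u

namespace Pool.Agent.H621.HG.Cls

section alg

variable {K A B B' : Type} [Field K] [Ring A] [Algebra K A] [Ring B] [Algebra K B] [Ring B']
  [Algebra K B']

/-- Every element of `C j` which is orthogonal to `C (n - j)` is `0`, for `j ≤ n`. -/
def NumEqHom (tr : A →ₗ[K] K) (C : ℕ → Set A) (n : ℕ) : Prop :=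
  ∀ j ≤ n, ∀ c ∈ C j, (∀ e ∈ C (n - j), tr (c * e) = 0) → c = 0

/-- `d` is an element of `C 1` which satisfies the hard Lefschetz theorem. -/
def LefElt (gr : ℕ → Submodule K A) (C : ℕ → Set A) (n : ℕ) (d : A) : Prop :=
  d ∈ C 1 ∧ Pool.Agent.H802T.HardElt gr n d

/-- For `2 j ≤ n` and every primitive element `c ≠ 0` of `C j` the number `tr (c d ^ (n - 2 j) c)` is
rational with the sign `(-1) ^ j`. -/
def HodgeElt (tr : A →ₗ[K] K) (C : ℕ → Set A) (n : ℕ) (d : A) : Prop :=
  ∀ j, 2 * j ≤ n → ∀ c ∈ C j, d ^ (n - 2 * j + 1) * c = 0 → c ≠ 0 →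
    ∃ q : ℚ, 0 < q ∧ tr (c * (d ^ (n - 2 * j) * c)) = (-1) ^ j * (q : K)

/-- The element `f b + g b'`. -/
def addPull (f : B →ₐ[K] A) (g : B' →ₐ[K] A) (b : B) (b' : B') : A := f b + g b'

/-- The element `∑ p, f p (b p)`. -/
def sumPull {m : ℕ} (f : Fin m → (B →ₐ[K] A)) (b : Fin m → B) : A := ∑ p, f p (b p)

end alg

open Pool.Agent.H914 Pool.Agent.H914.VarClass Pool.Agent.H914.VarClass.Obj
  Pool.Agent.TH125.Gal Pool.Agent.H802T

variable {k : Type u} [Field k] {𝒱 : VarClass k} {ops : CycleOps 𝒱}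
  {W : WeilCohomology.{u, 0} ops} {Γ : Type} [Group Γ]

/-- `d` is the class of a divisor on `X` which satisfies the hard Lefschetz theorem. -/
def IsLefschetz (W : WeilCohomology.{u, 0} ops) (X : 𝒱.Obj) (d : W.H X) : Prop :=
  LefElt (W.gr X) (algClasses W X) X.dim d

/-- The conjecture of Hodge type for `X` and the class `d` of a divisor. -/
def HodgeType (W : WeilCohomology.{u, 0} ops) (X : 𝒱.Obj) (d : W.H X) : Prop :=
  HodgeElt (W.tr X) (algClasses W X) X.dim d

/-- `f` is the class of a divisor with hard Lefschetz on the product `X^(n + 1)` of `n + 1` copies of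
`X`, and the conjecture of Hodge type holds for it, or it is the sum of the pull-backs of classes `d p`
of divisors with hard Lefschetz on the copies of `X` for which the conjecture of Hodge type holds. -/
def IsPowerPolarization (W : WeilCohomology.{u, 0} ops) (X : 𝒱.Obj) (n : ℕ)
    (f : W.H (power ops X n)) : Prop :=
  IsLefschetz W (power ops X n) f ∧ (HodgeType W (power ops X n) f ∨
    ∃ d : Fin (n + 1) → W.H X, (∀ p, IsLefschetz W X (d p) ∧ HodgeType W X (d p)) ∧
      f = sumPull (fun p => W.map (powerPrj ops X n p)) d)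

/-- The sum of the pull-backs of the classes `a` and `b` on `X × Y`. -/
noncomputable def boxSum (W : WeilCohomology.{u, 0} ops) {X Y : 𝒱.Obj} (a : W.H X) (b : W.H Y) :
    W.H (X.prod Y) := addPull (W.map (fst X Y)) (W.map (snd X Y)) a b

/-- The pairs `(Y, c)` of a variety `Y = X_1^(n_1) × (X_2^(n_2) × ( ⋯ × Z))` as in `Tower` and the
sum `c` of the pull-backs of classes `f_i` on `X_i^(n_i)` with the property `p` and of the class `e` on
`Z`. -/
inductive SumTower {ι : Type} (X : ι → GVar W Γ) (T : ι → PRep W.K Γ) (Z : GVar W Γ)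
    (p : ∀ (A : 𝒱.Obj) (n : ℕ), W.H (power ops A n) → Prop) (e : W.H Z.X) :
    Set ι → (Y : GVar W Γ) → W.H Y.X → Prop
  | base : SumTower X T Z p e ∅ Z e
  | step {S Y Y' c c'} (i : ι) (n : ℕ) (f : W.H (power ops (X i).X n)) :
      SumTower X T Z p e S Y c → i ∉ S →
      (Even (X i).X.dim → n + 1 < (T i).dim) → IsPowTimes (X i) n Y Y' → p (X i).X n f →
      HEq c' (boxSum W f c) → SumTower X T Z p e (insert i S) Y' c'

end Pool.Agent.H621.HG.Cls
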