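import Pool.Agent.H621.HG.Ns
import Pool.Agent.H802T.TwrD
import Pool.Agent.TH132.A.Hodge
import Pool.Agent.V11219.BstMain

/-!
# The conjecture of Hodge type for powers and for products with powers
-/

open CategoryTheory AlgebraicGeometry Finset

set_option linter.unusedSectionVars false

universe u

namespace Pool.Agent.H621.HG

open Pool.Agent.TH125.Gal Pool.Agent.H802T
open Pool.Agent.H914 Pool.Agent.H914.VarClass Pool.Agent.H914.VarClass.Obj
  Pool.Agent.H914.WeilCohomology Pool.Agent.H281R3.HT Pool.Agent.W552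

variable {k : Type u} [Field k] {𝒱 : VarClass k} {ops : CycleOps 𝒱}
  {W : WeilCohomology.{u, 0} ops} {X : 𝒱.Obj}

/-- The conjecture of Hodge type depends only on the class of the divisor. -/
theorem hodgeType_congr {D D' : X.Cycles} (hD : X.IsCyc 1 D) (hD' : X.IsCyc 1 D')
    (h : W.cl X D = W.cl X D') : HodgeType W X D ↔ HodgeType W X D' := by
  have key : ∀ {D D' : X.Cycles}, X.IsCyc 1 D → X.IsCyc 1 D' → W.cl X D = W.cl X D' →
      HodgeType W X D → HodgeType W X D' := by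
    intro D D' hD hD' h hH j hj z hz h0 hz0
    have h1 : ∀ i, W.cl X (divPow ops D i z) = W.cl X (divPow ops D' i z) := fun i => by
      rw [cl_divPow, cl_divPow, h]
    have h2 := hH j hj z hz (by rw [h1, h0]) hz0
    have e1 := ops.mul_mem hz (divPow_mem (ops := ops) hD (X.dim - 2 * j) hz)
    have e2 := ops.mul_mem hz (divPow_mem (ops := ops) hD' (X.dim - 2 * j) hz)
    rw [show j + (j + (X.dim - 2 * j)) = X.dim by omega] at e1 e2
    have h3 : ((X.V.degCycle (ops.mul z (divPow ops D (X.dim - 2 * j) z)) : ℚ) : W.K) =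
        ((X.V.degCycle (ops.mul z (divPow ops D' (X.dim - 2 * j) z)) : ℚ) : W.K) := by
      rw [← W.tr_cl e1, ← W.tr_cl e2, W.cl_mul, W.cl_mul, h1]
    rwa [Rat.cast_injective h3] at h2
  exact ⟨key hD hD' h, key hD' hD h.symm⟩

/-- A divisor which satisfies the hard Lefschetz theorem. -/
def HL (W : WeilCohomology.{u, 0} ops) (X : 𝒱.Obj) (D : X.Cycles) : Prop :=
  X.IsCyc 1 D ∧ HardLefschetz W X D

theorem HL.congr {D D' : X.Cycles} (hD : HL W X D) (hD' : X.IsCyc 1 D')
    (h : W.cl X D = W.cl X D') : HL W X D' := by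
  refine ⟨hD', ?_⟩
  have h1 := hD.2
  rw [HardLefschetz, h] at h1
  exact h1

theorem nest_cl : ∀ (n : ℕ) (P : Fin (n + 1) → Polarized 𝒱),
    W.cl (nest ops n P).X (nest ops n P).D =
      ∑ a, W.map (prj ops n P a) (W.cl (P a).X (P a).D)
  | 0, P => by
    rw [Fin.sum_univ_one]
    exact (W.map_id _ _).symm
  | n + 1, P => by
    rw [Fin.sum_univ_succ]
    have h1 : W.cl (nest ops (n + 1) P).X (nest ops (n + 1) P).D =
        W.map (fst (P 0).X (nest ops n fun i => P i.succ).X) (W.cl _ (P 0).D) +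
          W.map (snd (P 0).X (nest ops n fun i => P i.succ).X)
            (W.cl _ (nest ops n fun i => P i.succ).D) := by
      show W.cl ((P 0).X.prod (nest ops n fun i => P i.succ).X)
        (ops.pull _ _ + ops.pull _ _) = _
      rw [map_add, W.cl_pull, W.cl_pull]
    rw [h1, nest_cl n, map_sum]
    congr 1
    refine Finset.sum_congr rfl fun i _ => ?_
    exact (W.map_comp _ _ _).symm

theorem nest_HL : ∀ (n : ℕ) (P : Fin (n + 1) → Polarized 𝒱), (∀ a, HL W (P a).X (P a).D) →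
    HL W (nest ops n P).X (nest ops n P).D
  | 0, _, h => h 0
  | n + 1, P, h => by
    have ih := nest_HL n (fun i => P i.succ) fun i => h i.succ
    exact ⟨SmVar.IsCyc.add (ops.pull_mem _ (h 0).1) (ops.pull_mem _ ih.1),
      hardLefschetz_prod (h 0).1 ih.1 (h 0).2 ih.2⟩

theorem pw_step {Y Z : 𝒱.Obj} (h : Y = Z) (q : Y ⟶ X) (q' : Z ⟶ X)
    (hq : q = eqToHom h ≫ q') : fst X Y = eqToHom (congrArg X.prod h) ≫ fst X Z ∧
      snd X Y ≫ q = eqToHom (congrArg X.prod h) ≫ snd X Z ≫ q' := by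
  subst h
  subst hq
  simp

/-- The product of copies of `X` with different divisors. -/
theorem pw_eq : ∀ (n : ℕ) (D : Fin (n + 1) → X.Cycles),
    ∃ h : (nest ops n fun a => ⟨X, D a⟩).X = power ops X n,
      ∀ p, prj ops n (fun a => ⟨X, D a⟩) p = eqToHom h ≫ powerPrj ops X n p
  | 0, D => ⟨rfl, fun p => by
    obtain rfl : p = 0 := Fin.eq_zero p
    exact (Category.id_comp _).symm⟩
  | n + 1, D => by
    obtain ⟨h, hp⟩ := pw_eq n fun i => D i.succ
    refine ⟨congrArg X.prod h, fun p => ?_⟩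
    refine Fin.cases ?_ (fun i => ?_) p
    · exact (pw_step h _ _ (hp 0)).1
    · exact (pw_step h _ _ (hp i)).2

theorem transport {n : ℕ} {s : SB W X} {A B : 𝒱.Obj} (h : A = B) (E : A.Cycles)
    (π : Fin (n + 1) → (A ⟶ X)) (π' : Fin (n + 1) → (B ⟶ X))
    (hp : ∀ p, π p = eqToHom h ≫ π' p) (hHL : HL W A E) (d : Fin (n + 1) → W.H X)
    (hcl : W.cl A E = ∑ a, W.map (π a) (d a))
    (hh : (∀ c, W552.AS W A c → c ∈ Submodule.span W.K {m | ∃ S i, Mq s π S i m}) →
      HodgeType W A E)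
    (hn : ∀ c, W552.AS W B c → c ∈ Submodule.span W.K {m | ∃ S i, Mq s π' S i m}) :
    ∃ F : B.Cycles, HL W B F ∧ W.cl _ F = ∑ a, W.map (π' a) (d a) ∧ HodgeType W B F := by
  subst h
  have hπ : π = π' := by
    funext p
    rw [hp p, eqToHom_refl, Category.id_comp]
  subst hπ
  exact ⟨E, hHL, hcl, hh hn⟩

/-- **The conjecture of Hodge type for powers.** -/
theorem pow_hodge {n : ℕ} (D : Fin (n + 1) → X.Cycles) (hD : ∀ a, HL W X (D a))
    (hH : ∀ a, HodgeType W X (D a))
    (hDX : HomEqNum W X) (hmid : transcendental W X ≤ W.gr X X.dim) (s : SB W X)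
    (hne : (1 : W.H X) ≠ 0)
    (h1 : 1 ≤ n → HomEqNum W (X.prod X) ∧ ∀ c, W552.AS W (X.prod X) c → c ∈ Submodule.span W.K
      {c | (∃ a ∈ algSpan W X, ∃ b ∈ algSpan W X, c = H281R3.HT.ext W a b) ∨ c = dT s})
    (hn : ∀ c, W552.AS W (power ops X n) c → c ∈ Submodule.span W.K
      {m | ∃ S i, Mq s (powerPrj ops X n) S i m}) :
    ∃ F : (power ops X n).Cycles, HL W (power ops X n) F ∧
      W.cl _ F = ∑ a, W.map (powerPrj ops X n a) (W.cl X (D a)) ∧
      HodgeType W (power ops X n) F := by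
  obtain ⟨h, hp⟩ := pw_eq (ops := ops) n D
  have hHL := nest_HL (ops := ops) n (fun a => ⟨X, D a⟩) hD
  have hcl := nest_cl (ops := ops) (W := W) n (fun a => ⟨X, D a⟩)
  have hh : (∀ c, W552.AS W (nest ops n fun a => ⟨X, D a⟩).X c → c ∈ Submodule.span W.K
      {m | ∃ S i, Mq s (prj ops n fun a => ⟨X, D a⟩) S i m}) →
      HodgeType W (nest ops n fun a => ⟨X, D a⟩).X (nest ops n fun a => ⟨X, D a⟩).D := by
    intro hn'
    rcases Nat.eq_zero_or_pos n with rfl | hn0
    · exact hH 0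
    · obtain ⟨hX2, h2⟩ := h1 hn0
      obtain ⟨g, F⟩ := fp_nest2 D (fun a => (hD a).1) (fun a => (hD a).2)
        (fun a => V11219.Bst.lefschetzB_of_homEqNum (hD a).1 (hD a).2 hX2) hH hDX hmid s hne h2 hn'
      exact F.hodge.1
  exact transport h _ _ _ hp hHL (fun a => W.cl X (D a)) hcl hh hn

end Pool.Agent.H621.HG
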