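import Pool.Agent.TH125.Gal.Sqr

/-!
# Positivity of the form on the square, with two different divisors
-/

open CategoryTheory AlgebraicGeometry Finset

set_option linter.unusedSectionVars false

universe u v w

namespace Pool.Agent.H621.HG

open Pool.Agent.TH125.Gal
open Pool.Agent.H914 Pool.Agent.H914.VarClass Pool.Agent.H914.VarClass.Obj
  Pool.Agent.H914.WeilCohomology Pool.Agent.H281R3.HT Pool.Agent.W552 Pool.Agent.H447

variable {k : Type u} [Field k] {𝒱 : VarClass k} {ops : CycleOps 𝒱}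
  {W : WeilCohomology.{u, v} ops} {X : 𝒱.Obj}
  {D D' : X.Cycles} {f f' : Module.End W.K (W.H X)}

theorem bf_dT2 (hmid : transcendental W X ≤ W.gr X X.dim) (F : Fp W X D f) (F' : Fp W X D' f')
    (s : SB W X) :
    bf W (X.prod X) (ops.pull (fst X X) D + ops.pull (snd X X) D') (extSum W f f') (dT s) (dT s) =
      s.NT := by
  have hsg : (sg X.dim : W.K) * (sg X.dim : W.K) = 1 := by
    have := congrArg (Int.cast (R := W.K)) (sg_sq X.dim)
    push_cast at this
    exact this
  have h1 : ∀ i j, bf W (X.prod X) (ops.pull (fst X X) D + ops.pull (snd X X) D')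
      (extSum W f f') (W.map (fst X X) (s.bT i : W.H X) * W.map (snd X X) (s.uT i : W.H X))
      (W.map (fst X X) (s.bT j : W.H X) * W.map (snd X X) (s.uT j : W.H X)) =
      bil W X (s.bT i) (s.bT j) * bil W X (s.uT i) (s.uT j) := by
    intro i j
    have h2 := F.fr.bf_ext F'.fr (s.bT i : W.H X) (s.bT j : W.H X) (s.uT i : W.H X)
      (s.uT j : W.H X)
    rw [H281R3.HT.ext, H281R3.HT.ext] at h2
    rw [h2, bf_trans hmid F _ (s.bT j).2, bf_trans hmid F' _ (s.uT j).2]
    linear_combination (bil W X (s.bT i : W.H X) (s.bT j : W.H X) *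
      bil W X (s.uT i : W.H X) (s.uT j : W.H X)) * hsg
  rw [dT, map_sum (bf W (X.prod X) _ _), LinearMap.sum_apply]
  simp only [map_sum, h1]
  have h2 : ∀ i, ∑ j, bil W X (s.bT i : W.H X) (s.bT j : W.H X) *
      bil W X (s.uT i : W.H X) (s.uT j : W.H X) = 1 := by
    intro i
    have h3 := congrArg (bil W X (s.uT i : W.H X)) (sum_bT s i)
    rw [map_sum, s.uT_bT, if_pos rfl] at h3
    rw [← h3]
    refine Finset.sum_congr rfl fun j _ => ?_
    rw [map_smul, smul_eq_mul]
  rw [Finset.sum_congr rfl fun i _ => h2 i, Finset.sum_const, Finset.card_univ,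
    Fintype.card_fin, nsmul_eq_mul, mul_one]

theorem bf_ext_dT2 (hmid : transcendental W X ≤ W.gr X X.dim) (F : Fp W X D f)
    (F' : Fp W X D' f') (s : SB W X) {a b : W.H X} (ha : a ∈ algSpan W X) :
    bf W (X.prod X) (ops.pull (fst X X) D + ops.pull (snd X X) D') (extSum W f f')
      (H281R3.HT.ext W a b) (dT s) = 0 := by
  rw [dT, map_sum]
  refine Finset.sum_eq_zero fun i _ => ?_
  have h2 := F.fr.bf_ext F'.fr a (s.bT i : W.H X) b (s.uT i : W.H X)
  rw [bf_trans hmid F _ (s.bT i).2, alg_trans (s.bT i).2 ha, mul_zero, zero_mul] at h2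
  exact h2

/-- **Positivity of the form on the algebraic classes of the square.** -/
theorem fp_square2 (hDX : HomEqNum W X) (hmid : transcendental W X ≤ W.gr X X.dim)
    (F : Fp W X D f) (F' : Fp W X D' f') (s : SB W X)
    (hspan : ∀ c, W552.AS W (X.prod X) c → c ∈ Submodule.span W.K
      {c | (∃ a ∈ algSpan W X, ∃ b ∈ algSpan W X, c = H281R3.HT.ext W a b) ∨ c = dT s}) :
    Fp W (X.prod X) (ops.pull (fst X X) D + ops.pull (snd X X) D') (extSum W f f') := by
  refine ⟨F.fr.prod F'.fr, F.sy.prod F.fr F'.fr F'.sy, ?_⟩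
  obtain ⟨N, e, w, he, hw, horth, hexp⟩ := F.exists_onb
  obtain ⟨N', e', w', he', hw', horth', hexp'⟩ := F'.exists_onb
  set M : W.H (X.prod X) → Prop := fun c => ∃ (r : Fin N × Fin N' → ℚ) (r0 : ℚ),
    c = ∑ x, (r x : W.K) • H281R3.HT.ext W (e x.1) (e' x.2) + (r0 : W.K) • dT s with hM
  have hRat : RatSub W.K M := by
    refine ⟨⟨0, 0, by simp⟩, ?_, ?_⟩
    · rintro x y ⟨r, r0, rfl⟩ ⟨r', r0', rfl⟩
      refine ⟨r + r', r0 + r0', ?_⟩
      simp only [Pi.add_apply, Rat.cast_add, add_smul, Finset.sum_add_distrib]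
      abel
    · rintro q x ⟨r, r0, rfl⟩
      refine ⟨q • r, q * r0, ?_⟩
      rw [smul_add, Finset.smul_sum, smul_smul]
      congr 1
      · refine Finset.sum_congr rfl fun x _ => ?_
        rw [Pi.smul_apply, smul_eq_mul, smul_smul, Rat.cast_mul]
      · rw [Rat.cast_mul]
  have hMAS : ∀ c, M c → W552.AS W _ c := by
    rintro c ⟨r, r0, rfl⟩
    exact (W552.AS.ratSub.sum _ fun x _ => ((he x.1).ext (he' x.2)).smul _).add
      ((dT_AS hDX hmid F s).smul _)
  have hFF := F.fr.prod F'.fr
  have hsy := F.sy.prod F.fr F'.fr F'.sy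
  have hbf : ∀ (r : Fin N × Fin N' → ℚ) (r0 : ℚ), bf W (X.prod X)
      (ops.pull (fst X X) D + ops.pull (snd X X) D') (extSum W f f')
      (∑ x, (r x : W.K) • H281R3.HT.ext W (e x.1) (e' x.2) + (r0 : W.K) • dT s)
      (∑ x, (r x : W.K) • H281R3.HT.ext W (e x.1) (e' x.2) + (r0 : W.K) • dT s) =
      ((∑ x, r x ^ 2 * (w x.1 * w' x.2) + r0 ^ 2 * s.NT : ℚ) : W.K) := by
    intro r r0
    have h1 : ∀ x y : Fin N × Fin N', bf W (X.prod X)
        (ops.pull (fst X X) D + ops.pull (snd X X) D') (extSum W f f')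
        (H281R3.HT.ext W (e x.1) (e' x.2)) (H281R3.HT.ext W (e y.1) (e' y.2)) =
        if x = y then (w x.1 * w' x.2 : W.K) else 0 := by
      intro x y
      rw [F.fr.bf_ext F'.fr, horth, horth']
      by_cases h1 : x.1 = y.1
      · by_cases h2 : x.2 = y.2
        · rw [if_pos h1, if_pos h2, if_pos (Prod.ext h1 h2)]
        · rw [if_neg h2, mul_zero, if_neg (fun h => h2 (congrArg Prod.snd h))]
      · rw [if_neg h1, zero_mul, if_neg (fun h => h1 (congrArg Prod.fst h))]
    have h2 : ∀ x : Fin N × Fin N', bf W (X.prod X)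
        (ops.pull (fst X X) D + ops.pull (snd X X) D') (extSum W f f')
        (H281R3.HT.ext W (e x.1) (e' x.2)) (dT s) = 0 := fun x =>
      bf_ext_dT2 hmid F F' s (as_algSpan (he x.1))
    have h3 : ∀ x : Fin N × Fin N', bf W (X.prod X)
        (ops.pull (fst X X) D + ops.pull (snd X X) D') (extSum W f f')
        (dT s) (H281R3.HT.ext W (e x.1) (e' x.2)) = 0 := by
      intro x
      rw [hsy, par_AS ((he x.1).ext (he' x.2)), h2]
    have h4 : ∀ x, bf W (X.prod X) (ops.pull (fst X X) D + ops.pull (snd X X) D')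
        (extSum W f f') (∑ y, (r y : W.K) • H281R3.HT.ext W (e y.1) (e' y.2))
        (H281R3.HT.ext W (e x.1) (e' x.2)) = r x * (w x.1 * w' x.2) := by
      intro x
      rw [map_sum (bf W (X.prod X) _ _), LinearMap.sum_apply, Finset.sum_eq_single x]
      · rw [map_smul, LinearMap.smul_apply, h1, if_pos rfl, smul_eq_mul]
      · intro y _ hy
        rw [map_smul, LinearMap.smul_apply, h1, if_neg hy, smul_zero]
      · intro h
        exact absurd (Finset.mem_univ _) h
    have h5 : bf W (X.prod X) (ops.pull (fst X X) D + ops.pull (snd X X) D')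
        (extSum W f f') (∑ y, (r y : W.K) • H281R3.HT.ext W (e y.1) (e' y.2)) (dT s) = 0 := by
      rw [map_sum (bf W (X.prod X) _ _), LinearMap.sum_apply]
      refine Finset.sum_eq_zero fun y _ => ?_
      rw [map_smul, LinearMap.smul_apply, h2, smul_zero]
    have h6 : bf W (X.prod X) (ops.pull (fst X X) D + ops.pull (snd X X) D')
        (extSum W f f') (dT s) (∑ y, (r y : W.K) • H281R3.HT.ext W (e y.1) (e' y.2)) = 0 := by
      rw [map_sum]
      refine Finset.sum_eq_zero fun y _ => ?_
      rw [map_smul, h3, smul_zero]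
    have h7 := bf_dT2 hmid F F' s
    rw [map_add, map_add, LinearMap.add_apply, LinearMap.add_apply, map_smul, map_smul,
      LinearMap.smul_apply, LinearMap.smul_apply, h5, h6]
    conv_lhs =>
      enter [1, 1]
      rw [map_sum]
    simp only [map_smul, h4, h7, smul_eq_mul, mul_zero, add_zero, zero_add]
    push_cast
    congr 1
    · refine Finset.sum_congr rfl fun x _ => ?_
      ring
    · ring
  have hpos : ∀ c, M c → c ≠ 0 → ∃ q : ℚ, 0 < q ∧ bf W (X.prod X)
      (ops.pull (fst X X) D + ops.pull (snd X X) D') (extSum W f f') c c = q := by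
    rintro c ⟨r, r0, rfl⟩ hc0
    refine ⟨_, ?_, hbf r r0⟩
    have h1 : ∀ x, 0 ≤ r x ^ 2 * (w x.1 * w' x.2) := fun x =>
      mul_nonneg (sq_nonneg _) (mul_pos (hw _) (hw' _)).le
    have h2 : (0 : ℚ) ≤ r0 ^ 2 * s.NT := mul_nonneg (sq_nonneg _) (Nat.cast_nonneg _)
    by_cases hr : ∀ x, r x = 0
    · have h3 : r0 ≠ 0 := by
        rintro rfl
        apply hc0
        rw [Finset.sum_eq_zero fun x _ => by rw [hr x, Rat.cast_zero, zero_smul]]
        simp
      have h4 : s.NT ≠ 0 := by
        intro h4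
        apply hc0
        have h5 : dT s = 0 := by
          rw [dT]
          apply Finset.sum_eq_zero
          intro i
          exact absurd i.2 (by omega)
        rw [Finset.sum_eq_zero fun x _ => by rw [hr x, Rat.cast_zero, zero_smul], h5]
        simp
      have h5 : (0 : ℚ) < r0 ^ 2 * s.NT := by
        have : (0 : ℚ) < s.NT := by exact_mod_cast Nat.pos_of_ne_zero h4
        positivity
      exact add_pos_of_nonneg_of_pos (Finset.sum_nonneg fun x _ => h1 x) h5
    · push Not at hr
      obtain ⟨x, hx⟩ := hr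
      refine add_pos_of_pos_of_nonneg (Finset.sum_pos' (fun x _ => h1 x)
        ⟨x, Finset.mem_univ _, ?_⟩) h2
      have := mul_pos (hw x.1) (hw' x.2)
      positivity
  obtain ⟨N'', e'', w'', he'', hw'', horth'', hspan'⟩ := exists_ratBasis hRat (bf W (X.prod X)
      (ops.pull (fst X X) D + ops.pull (snd X X) D') (extSum W f f'))
    (fun x y hx hy => hFF.bf_rat (hMAS x hx) (hMAS y hy))
    (fun x y hx hy => by rw [hsy x y, par_AS (hMAS y hy)]) hpos
  intro c hc hc0
  obtain ⟨r, hr⟩ := hspan' c (by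
    have h1 := hspan c hc
    refine (Submodule.span_le.2 ?_) h1
    rintro c (⟨a, ha, b, hb, rfl⟩ | rfl)
    · have h2 : H281R3.HT.ext W a b = ∑ k, ∑ l, (((w k : W.K)⁻¹ * bf W X D f a (e k)) *
          ((w' l : W.K)⁻¹ * bf W X D' f' b (e' l))) • H281R3.HT.ext W (e k) (e' l) := by
        conv_lhs => rw [hexp a ha, hexp' b hb]
        rw [H281R3.HT.ext, map_sum, map_sum, Finset.sum_mul]
        refine Finset.sum_congr rfl fun k _ => ?_
        rw [Finset.mul_sum]
        refine Finset.sum_congr rfl fun l _ => ?_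
        rw [map_smul, map_smul, smul_mul_smul_comm, H281R3.HT.ext]
      rw [h2]
      refine Submodule.sum_mem _ fun k _ => Submodule.sum_mem _ fun l _ =>
        Submodule.smul_mem _ _ (Submodule.subset_span ?_)
      refine ⟨fun x => if x = (k, l) then 1 else 0, 0, ?_⟩
      rw [Finset.sum_eq_single (k, l)]
      · simp
      · intro y _ hy
        beta_reduce
        rw [if_neg hy, Rat.cast_zero, zero_smul]
      · intro h
        exact absurd (Finset.mem_univ _) h
    · refine Submodule.subset_span ⟨0, 1, ?_⟩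
      simp) (fun k => hFF.bf_rat hc (hMAS _ (he'' k)))
  have hMc : M c := by
    rw [hr]
    exact hRat.sum _ fun k _ => hRat.smul _ (he'' k)
  exact hpos c hMc hc0

end Pool.Agent.H621.HG
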