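import Pool.Agent.H621.HG.Pw

/-!
# One step: products with powers
-/

open CategoryTheory AlgebraicGeometry Finset

set_option linter.unusedSectionVars false

universe u

namespace Pool.Agent.H621.HG

open Pool.Agent.TH125.Gal Pool.Agent.H802T
open Pool.Agent.H914 Pool.Agent.H914.VarClass Pool.Agent.H914.VarClass.Obj
  Pool.Agent.H914.WeilCohomology Pool.Agent.H281R3.HT Pool.Agent.W552

variable {k : Type u} [Field k] {𝒱 : VarClass k} {ops : CycleOps 𝒱}
  {W : WeilCohomology.{u, 0} ops} {Γ : Type} [Group Γ] {χ : Γ →* W.Kˣ}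

theorem hodge_zero {Z : 𝒱.Obj} (h : (1 : W.H Z) = 0) (D : Z.Cycles) : HodgeType W Z D := by
  intro j _ z _ _ hz
  exfalso
  apply hz
  rw [← one_mul (W.cl Z z), h, zero_mul]

section step

variable [IsAlgClosed W.K] {P : Polarized 𝒱} {n : ℕ} {Z : 𝒱.Obj}
    {ρ : Γ →* (W.H P.X ≃ₐ[W.K] W.H P.X)}
    {τ : Γ →* (W.H Z ≃ₐ[W.K] W.H Z)}
    {υ : Γ →* (W.H ((nest ops n fun _ => P).X.prod Z) ≃ₐ[W.K]
      W.H ((nest ops n fun _ => P).X.prod Z))}
    (hDX : HomEqNum W P.X) (hmid : transcendental W P.X ≤ W.gr P.X P.X.dim)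
    (hG : IsGalois W χ P.X ρ) (hP : IsPowAct W P n Z ρ τ υ)
    (hU : IsGalois W χ ((nest ops n fun _ => P).X.prod Z) υ)
    (hK : Even P.X.dim → n + 1 < Module.finrank W.K (transcendental W P.X))
    (hfull : Whole hG τ)

include hDX hmid hG hP hU hK hfull

/-- The algebraic classes on a power. -/
theorem mq_step (s : SB W P.X) (hZ1 : (1 : W.H Z) ≠ 0) :
    ∀ c, W552.AS W (nest ops n fun _ => P).X c → c ∈ Submodule.span W.K
      {m | ∃ S i, Mq s (prj ops n fun _ => P) S i m} := by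
  obtain ⟨b, hb⟩ := exists_monoBasis (ops := ops) P s.e n
  intro c hc
  refine mq_of_fst (P := P) hZ1 ?_
  refine W552.AS.ind (p := fun c => c ∈ Tgt (P := P) s n Z) ?_ ?_ (hc.map (fst _ Z))
  · intro j c hc
    obtain ⟨Δ, hΔ, h1⟩ := hU.cl_fix j c hc
    exact mem_Tgt2 hb hDX hmid hG hP hK hfull hΔ h1
  · intro x y hx hy
    exact Submodule.add_mem _ hx hy

/-- The algebraic classes split. -/
theorem tens_step (hZ1 : (1 : W.H Z) ≠ 0) :
    ∀ z, W552.AS W ((nest ops n fun _ => P).X.prod Z) z →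
      z ∈ TH132.A.tens W (nest ops n fun _ => P).X Z := by
  have hD := (homEqNum_pow hDX hmid hG hP hU hK hfull).2 hZ1
  exact fun z hz => TH132.A.mem_tens hD hz (lspan_le (lspan_of_AS hDX hmid hG hP hU hK hfull hz))

/-- **The conjecture of Hodge type for a product with a power.** -/
theorem hodge_step (h1 : (1 : W.H P.X) ≠ 0) {F : (nest ops n fun _ => P).X.Cycles}
    (hF : HL W _ F) (hHF : HodgeType W _ F) {E : Z.Cycles} (hE : HL W Z E)
    {C : ((nest ops n fun _ => P).X.prod Z).Cycles}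
    (hC : ((nest ops n fun _ => P).X.prod Z).IsCyc 1 C)
    (hcl : W.cl _ C = W.map (fst _ Z) (W.cl _ F) + W.map (snd _ Z) (W.cl _ E)) :
    HodgeType W ((nest ops n fun _ => P).X.prod Z) C ↔ HodgeType W Z E := by
  by_cases hZ1 : (1 : W.H Z) = 0
  · refine iff_of_true (hodge_zero ?_ _) (hodge_zero hZ1 _)
    rw [← map_one (W.map (snd _ Z)), hZ1, map_zero]
  have hc : ((nest ops n fun _ => P).X.prod Z).IsCyc 1
      (ops.pull (fst _ Z) F + ops.pull (snd _ Z) E) :=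
    SmVar.IsCyc.add (ops.pull_mem _ hF.1) (ops.pull_mem _ hE.1)
  rw [hodgeType_congr hC hc (by rw [hcl, map_add, W.cl_pull, W.cl_pull])]
  have hD := (homEqNum_pow hDX hmid hG hP hU hK hfull).2 hZ1
  obtain ⟨f, tf, hf⟩ := TH132.A.exists_lw hF.1 hF.2
  obtain ⟨g, tg, hg⟩ := TH132.A.exists_lw hE.1 hE.2
  have hst : TH132.A.Stable W _ f := TH132.A.stable_of_lefschetzA tf.hD tf.sl2
    (lefschetzA_of_D tf.hD hF.2 hD)
  have hP1 := nest_one_ne2 hDX hmid hG hP hU hK hfull h1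
  exact ⟨fun h => TH132.A.hodge_of_prod tf tg hHF hP1 h, fun h => TH132.A.hodge_prod_of
    (tens_step hDX hmid hG hP hU hK hfull hZ1) tf hf hF.2 hst hHF tg hg h⟩

end step

/-- `HomEqNum` for the square. -/
theorem homEqNum_square {X : 𝒱.Obj} (h1 : (1 : W.H X) ≠ 0) : ∀ {n : ℕ}, 1 ≤ n →
    HomEqNum W (power ops X n) → HomEqNum W (X.prod X)
  | 1, _, h => h
  | n + 2, _, h => by
    obtain ⟨x, hx⟩ := exists_tr h1
    exact homEqNum_square h1 (n := n + 1) (by omega) (homEqNum_factor hx h)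

end Pool.Agent.H621.HG
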